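import Pool.Agent.Helper9.S3.E0
import Pool.Agent.Helper9.S3.E1
import Pool.Agent.Helper9.S3.E2
import Pool.Agent.Helper9.S3.P3
import Pool.Agent.Helper9.S3.P4
import Pool.Agent.Helper9.S3X.D2
import Pool.Agent.Helper9.S3X.W3
import Pool.Agent.Helper9.S3X.W4
import Pool.Agent.Helper9.S3X.K2
import Pool.Agent.Helper9.S3X.K3
import Pool.Agent.Helper9.S3X.C1
import Pool.Agent.Helper9.S3X.C2

/-!
# Project RG (MP_0f6f3f_an): the reach theorem for an arbitrary stratum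

`FlG S J K`: the geometric estimate: for vectors `b`, `b'` carried by parts of the stratum `J` with separated positions, and `w` in the group von Neumann algebra, `|⟪b, w b'⟫| ≤ C ‖b‖ ‖b'‖ ‖ind (K R) (cf w)‖`.
`reachG`: if a nonamenable subgroup `F` has a component over the stratum `J` then its vectors have mass bounded below on the sets `K R`. Proofs: `LM`, `ZL`, `Z5` of S3X with the estimate as a hypothesis.
-/

set_option autoImplicit false
set_option linter.unusedSectionVars false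

open MeasureTheory Filter Topology

namespace Pool.Agent.Helper84.GN.S3.X

open NI GVN Pool.Agent.Helper90.RK
open Pool.Agent.Helper96.RK Pool.Agent.Helper66.FR Pool.Agent.Helper84.FR Pool.Agent.Helper55.FR

/-- The geometric estimate for the stratum `J` and the sets `K R`. -/
def FlG {G : Type} [Group G] {N : ℕ} {P : PH G N} (S : Sv P) (J : Finset (Fin N)) (K : ℝ → Set G) : Prop :=
  ∀ (r : ℕ) (δ : ℝ), 0 < δ → ∃ C : ℝ, 0 ≤ C ∧ ∀ R : ℝ, ∃ m : ℕ, ∀ A B : Set G,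
    (∀ γ ∈ A, ∀ γ' ∈ B, δ ≤ pdist S (chStr S J []).b γ γ') → ∀ w : L2 G ≃ₗᵢ[ℂ] L2 G, CommR w →
      ∀ b b' : L2 G, (∀ γ, γ ∉ A ∩ (WC S J r ∩ TC S [J] m) → b γ = 0) →
        (∀ γ, γ ∉ B ∩ (WC S J r ∩ TC S [J] m) → b' γ = 0) →
        ‖inner ℂ b (w b')‖ ≤ C * ‖b‖ * ‖b'‖ * ‖ind ℂ (K R) (cf w)‖

/-- A class approximated by sequences in a set, carried by the regions. -/
private theorem h94g_carrierA {N : ℕ} {G X : Type} [Group G] [MeasurableSpace X] {μ : Measure X}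
    [IsProbabilityMeasure μ] {P : PH G N} (S : Sv P) (J : Finset (Fin N)) (A : Set G)
    (x : XUa μ (toReg (chStr S J []))) (hx : iUX (toReg (chStr S J [])) A x = x) {ε : ℝ} (hε : 0 < ε) :
    ∃ (r : ℕ) (c : ℝ) (b : BSeq (XL μ (L2 G))) (hb : EB c b) (hb' : UE.mk b hb ∈ XUa μ (toReg (chStr S J []))),
      ‖x - ⟨UE.mk b hb, hb'⟩‖ < ε ∧ ∀ r' : ℕ, r ≤ r' → ∀ m : ℕ, ∀ᶠ n in (hyperfilter ℕ : Filter ℕ), ∀ᵐ z ∂μ, ∀ γ,
        γ ∉ A ∩ (WC S J r' ∩ TC S [J] m) → b.1 n z γ = 0 := by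
  classical
  obtain ⟨r, c, b, hb, hbm, h1, h2⟩ := exists_carrierX S J x hε
  have e1 : UE.mk (BSeq.map (cl μ (ind ℂ A)) b) (hb.map (ind ℂ A)) = UE.map μ (ind ℂ A) (UE.mk b hb) :=
    (UE.map_mk (ind ℂ A) b hb).symm
  have hb' : UE.mk (BSeq.map (cl μ (ind ℂ A)) b) (hb.map (ind ℂ A)) ∈ XUa μ (toReg (chStr S J [])) := by
    rw [e1]
    exact ind_mem_XUa _ A hbm
  refine ⟨r, _, BSeq.map (cl μ (ind ℂ A)) b, hb.map (ind ℂ A), hb', ?_, fun r' hr m => ?_⟩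
  · have e2 : x - ⟨UE.mk (BSeq.map (cl μ (ind ℂ A)) b) (hb.map (ind ℂ A)), hb'⟩ =
        iUX (toReg (chStr S J [])) A (x - ⟨UE.mk b hb, hbm⟩) := by
      rw [map_sub, hx]
      congr 1
      apply Subtype.ext
      rw [coe_iUX]
      exact e1
    have h5 : ∀ d : XUa μ (toReg (chStr S J [])), ‖iUX (toReg (chStr S J [])) A d‖ ≤ ‖d‖ := by
      intro d
      have h6 := xnorm_ind_le A (d : UE μ (L2 G))
      rw [← coe_iUX] at h6
      exact h6
    have h3 : ‖iUX (toReg (chStr S J [])) A (x - ⟨UE.mk b hb, hbm⟩)‖ ≤ ‖x - ⟨UE.mk b hb, hbm⟩‖ := h5 _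
    rw [e2]
    exact lt_of_le_of_lt h3 h1
  · filter_upwards [h2 m] with n hn
    filter_upwards [hn, cl_apply (μ := μ) (ind ℂ A) (b.1 n)] with z hz hz2 γ hγ
    change (cl μ (ind ℂ A) (b.1 n)) z γ = 0
    rw [hz2, ind_apply]
    split_ifs with hA
    · exact hz γ fun h => hγ ⟨hA, WC_mono S J hr h.1, h.2⟩
    · rfl

variable {G1 X G Λ : Type} [Group G1] [MeasurableSpace X] [MulAction G1 X] [MeasurableConstSMul G1 X]
  [Group G] [Group Λ] [Countable Λ] {μ : Measure X} [SMulInvariantMeasure G1 X μ] [IsProbabilityMeasure μ]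
  {a : Cocy G1 X Λ} {E : Emb Λ G} {N : ℕ} {P : PH G N}

private theorem h94g_loc_zero (S : Sv P) {J : Finset (Fin N)} {K : ℝ → Set G} (hfl : FlG S J K) (F : Subgroup G1)
    (hH : ∀ β : ℝ, 0 < β → ∃ R : ℝ, ∀ f ∈ F, ‖cl μ (ind ℂ (K R)) (zx μ a E f)‖ ≤ β) {b : ℕ → G1} (hb : ∀ n, b n ∈ F)
    {l m : G1} (hl : l ∈ F) (hm : m ∈ F) {A B : Set G} {δ : ℝ} (hδ : 0 < δ)
    (hAB : ∀ γ ∈ B, ∀ γ' ∈ A, δ ≤ pdist S (chStr S J []).b γ γ') {r : ℕ} {c c' : ℝ}
    {u u' : BSeq (XL μ (L2 G))} (hu : EB c u) (hu' : EB c' u') (hum : UE.mk u hu ∈ XUa μ (toReg (chStr S J [])))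
    (hum' : UE.mk u' hu' ∈ XUa μ (toReg (chStr S J [])))
    (h1 : ∀ m : ℕ, ∀ᶠ n in (hyperfilter ℕ : Filter ℕ), ∀ᵐ z ∂μ, ∀ γ,
        γ ∉ A ∩ (WC S J r ∩ TC S [J] m) → u.1 n z γ = 0)
    (h2 : ∀ m : ℕ, ∀ᶠ n in (hyperfilter ℕ : Filter ℕ), ∀ᵐ z ∂μ, ∀ γ,
        γ ∉ B ∩ (WC S J r ∩ TC S [J] m) → u'.1 n z γ = 0) :
    inner ℂ (ContinuousLinearMap.adjoint (TT μ a E (toReg (chStr S J [])) b m) (⟨UE.mk u' hu', hum'⟩ : XUa μ (toReg (chStr S J []))))
      (ContinuousLinearMap.adjoint (TT μ a E (toReg (chStr S J [])) b l) (⟨UE.mk u hu, hum⟩ : XUa μ (toReg (chStr S J [])))) = 0 := by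
  have hc0 : 0 ≤ c := hu.1
  have hc0' : 0 ≤ c' := hu'.1
  obtain ⟨C, hC, hfl⟩ := hfl r δ hδ
  have key : ∀ β : ℝ, 0 < β → ‖inner ℂ (ContinuousLinearMap.adjoint (TT μ a E (toReg (chStr S J [])) b m)
        (⟨UE.mk u' hu', hum'⟩ : XUa μ (toReg (chStr S J []))))
      (ContinuousLinearMap.adjoint (TT μ a E (toReg (chStr S J [])) b l) (⟨UE.mk u hu, hum⟩ : XUa μ (toReg (chStr S J []))))‖ ≤
        C * c' * c * β := by
    intro β hβ
    obtain ⟨R, hR⟩ := hH β hβ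
    obtain ⟨m0, hL'⟩ := hfl R
    refine double_limitX l m u u' hu hu' hum hum' ?_
    filter_upwards [h1 m0] with n hn
    filter_upwards [h2 m0] with k hk
    have hg : b k * m⁻¹ * l * (b n)⁻¹ ∈ F :=
      F.mul_mem (F.mul_mem (F.mul_mem (hb k) (F.inv_mem hm)) hl) (F.inv_mem (hb n))
    refine (ZZ_apply_le (b k * m⁻¹ * l * (b n)⁻¹) (A := B ∩ (WC S J r ∩ TC S [J] m0)) (B := A ∩ (WC S J r ∩ TC S [J] m0)) (Q := K R)
      hC (hL' B A hAB) hc0 hc0' (hu.2 n) (hu'.2 k) ?_ ?_).trans ?_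
    · filter_upwards [hn] with z hz γ hγ
      exact hz γ hγ
    · filter_upwards [hk] with z hz γ hγ
      exact hz γ hγ
    · exact mul_le_mul_of_nonneg_left (hR _ hg) (mul_nonneg (mul_nonneg hC hc0') hc0)
  rw [← norm_le_zero_iff]
  refine le_of_forall_pos_le_add fun ε hε => ?_
  have hK : 0 ≤ C * c' * c := mul_nonneg (mul_nonneg hC hc0') hc0
  refine (key (ε / (C * c' * c + 1)) (by positivity)).trans ?_
  rw [zero_add, ← mul_div_assoc, div_le_iff₀ (by positivity)]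
  nlinarith

theorem loc_mainG (S : Sv P) {J : Finset (Fin N)} {K : ℝ → Set G} (hfl : FlG S J K) (F : Subgroup G1)
    (hH : ∀ β : ℝ, 0 < β → ∃ R : ℝ, ∀ f ∈ F, ‖cl μ (ind ℂ (K R)) (zx μ a E f)‖ ≤ β) {b : ℕ → G1} (hb : ∀ n, b n ∈ F)
    {l m : G1} (hl : l ∈ F) (hm : m ∈ F) :
    LocX (toReg (chStr S J [])) (posPD S (chStr S J []).b) ((TT μ a E (toReg (chStr S J [])) b m).comp
      (ContinuousLinearMap.adjoint (TT μ a E (toReg (chStr S J [])) b l))) := by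
  classical
  intro A B δ hδ hAB x
  have hAB' : ∀ γ ∈ B, ∀ γ' ∈ A, δ ≤ pdist S (chStr S J []).b γ γ' := fun γ hγ γ' hγ' => by
    have h1 := hAB γ' hγ' γ hγ
    rwa [(posPD S (chStr S J []).b).symm] at h1
  -- vanishing of the inner products
  have key : ∀ x' y' : XUa μ (toReg (chStr S J [])), iUX (toReg (chStr S J [])) A x' = x' → iUX (toReg (chStr S J [])) B y' = y' →
      inner ℂ (ContinuousLinearMap.adjoint (TT μ a E (toReg (chStr S J [])) b m) y')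
        (ContinuousLinearMap.adjoint (TT μ a E (toReg (chStr S J [])) b l) x') = 0 := by
    intro x' y' hx' hy'
    have ha : ∀ k : ℕ, ∃ (u v : XUa μ (toReg (chStr S J []))), ‖x' - u‖ < 1 / ((k : ℝ) + 1) ∧
        ‖y' - v‖ < 1 / ((k : ℝ) + 1) ∧
        inner ℂ (ContinuousLinearMap.adjoint (TT μ a E (toReg (chStr S J [])) b m) v)
          (ContinuousLinearMap.adjoint (TT μ a E (toReg (chStr S J [])) b l) u) = 0 := by
      intro k
      obtain ⟨r, c, u, hu, hum, h1, h2⟩ := h94g_carrierA S J A x' hx' (ε := 1 / ((k : ℝ) + 1)) (by positivity)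
      obtain ⟨r', c', u', hu', hum', h1', h2'⟩ := h94g_carrierA S J B y' hy' (ε := 1 / ((k : ℝ) + 1)) (by positivity)
      exact ⟨⟨UE.mk u hu, hum⟩, ⟨UE.mk u' hu', hum'⟩, h1, h1', h94g_loc_zero S hfl F hH hb hl hm hδ hAB' hu hu' hum hum'
        (h2 (max r r') (le_max_left _ _)) (h2' (max r r') (le_max_right _ _))⟩
    choose u v hu hv huv using ha
    have hu' : Tendsto u atTop (𝓝 x') := by
      refine tendsto_iff_norm_sub_tendsto_zero.2 (squeeze_zero (fun _ => norm_nonneg _) (fun k => ?_)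
        tendsto_one_div_add_atTop_nhds_zero_nat)
      rw [norm_sub_rev]
      exact (hu k).le
    have hv' : Tendsto v atTop (𝓝 y') := by
      refine tendsto_iff_norm_sub_tendsto_zero.2 (squeeze_zero (fun _ => norm_nonneg _) (fun k => ?_)
        tendsto_one_div_add_atTop_nhds_zero_nat)
      rw [norm_sub_rev]
      exact (hv k).le
    have h3 := (((ContinuousLinearMap.adjoint (TT μ a E (toReg (chStr S J [])) b m)).continuous.tendsto y').comp hv').inner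
      (𝕜 := ℂ) (((ContinuousLinearMap.adjoint (TT μ a E (toReg (chStr S J [])) b l)).continuous.tendsto x').comp hu')
    refine tendsto_nhds_unique h3 ?_
    refine tendsto_const_nhds.congr fun k => ?_
    exact (huv k).symm
  have idem : ∀ (C : Set G) (z : XUa μ (toReg (chStr S J []))), iUX (toReg (chStr S J [])) C (iUX (toReg (chStr S J [])) C z) =
      iUX (toReg (chStr S J [])) C z := by
    intro C z
    apply Subtype.ext
    rw [coe_iUX, coe_iUX, xind_ind, Set.inter_self]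
  set Y : XUa μ (toReg (chStr S J [])) := ((TT μ a E (toReg (chStr S J [])) b m).comp
    (ContinuousLinearMap.adjoint (TT μ a E (toReg (chStr S J [])) b l))) (iUX (toReg (chStr S J [])) A x) with hY
  have h4 : inner ℂ (iUX (toReg (chStr S J [])) B Y) (iUX (toReg (chStr S J [])) B Y) = (0 : ℂ) := by
    have h5 : inner ℂ (iUX (toReg (chStr S J [])) B Y) (iUX (toReg (chStr S J [])) B Y) =
        (inner ℂ (iUX (toReg (chStr S J [])) B Y) Y : ℂ) := by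
      conv_rhs => rw [← idem B Y]
      rw [Submodule.coe_inner, Submodule.coe_inner, coe_iUX _ B (iUX (toReg (chStr S J [])) B Y), xinner_ind]
      rfl
    rw [h5, hY, ContinuousLinearMap.comp_apply, ← ContinuousLinearMap.adjoint_inner_left]
    exact key _ _ (idem A x) (idem B Y)
  exact inner_self_eq_zero.1 h4


private theorem cl_ind_mono88g {A B : Set G} (h : A ⊆ B) (f : XL μ (L2 G)) :
    ‖cl μ (ind ℂ A) f‖ ≤ ‖cl μ (ind ℂ B) f‖ := by
  have h1 := cl_ind_ind A B f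
  rw [Set.inter_eq_left.2 h] at h1
  rw [← h1]
  have h2 := norm_cl_le_of (μ := μ) (T := ind ℂ A) (C := 1) zero_le_one (fun x => by
    rw [one_mul]
    exact norm_ind2 _ _) (cl μ (ind ℂ B) f)
  rwa [one_mul] at h2

private theorem split88g (A : Set G) (ξ : UE μ (L2 G)) :
    ξ = UE.map μ (ind ℂ A) ξ + UE.map μ (ind ℂ Aᶜ) ξ := by
  classical
  have h1 : (ContinuousLinearMap.id ℂ (L2 G)) = ind ℂ A + ind ℂ Aᶜ := by
    ext1 f
    apply lv_ext
    intro i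
    rw [_root_.add_apply, lp.coeFn_add, Pi.add_apply, ContinuousLinearMap.id_apply, ind_apply, ind_apply]
    by_cases h4 : i ∈ A <;> simp [h4]
  rw [← UE.map_add, ← h1, UE.map_id]

theorem lowG (S : Sv P) {J : Finset (Fin N)} {K : ℝ → Set G} (hK : ∀ R, ∃ n : ℕ, TC S [J] n ∩ (WC S J n)ᶜ ⊆ K R) (F : Subgroup G1)
    (hH : ∀ β : ℝ, 0 < β → ∃ R : ℝ, ∀ f ∈ F, ‖cl μ (ind ℂ (K R)) (zx μ a E f)‖ ≤ β) {b : ℕ → G1} (hb : ∀ n, b n ∈ F)
    (h0 : XPpr (toReg (chStr S J [])) (vec μ a E b) ≠ 0) {L : Type} [NormedAddCommGroup L] [InnerProductSpace ℂ L]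
    [CompleteSpace L] (Γ : Coc (toReg (chStr S J [])) L) : ∃ c : ℝ, 0 < c ∧ ∀ v ∈ F, c ≤ (inner ℂ
      (XTL μ Γ (XPpr (toReg (chStr S J [])) (vec μ a E fun n => b n * v⁻¹)))
      (XTR μ Γ (XPpr (toReg (chStr S J [])) (vec μ a E fun n => b n * v⁻¹))) : ℂ).re := by
  have hα : 0 < ‖XPpr (toReg (chStr S J [])) (vec μ a E b)‖ := norm_pos_iff.2 h0
  set α : ℝ := ‖XPpr (toReg (chStr S J [])) (vec μ a E b)‖ with hαd
  obtain ⟨R0, hR0⟩ := hH (α / 2) (half_pos hα)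
  obtain ⟨n, hsub⟩ := hK R0
  obtain ⟨c, hc, hpos⟩ := Γ.pos n
  have hW : (toReg (chStr S J [])).W n = WC S J n := rfl
  rw [hW] at hpos
  refine ⟨c * (α / 2) ^ 2, by positivity, fun v hv => ?_⟩
  have hna : ‖XPpr (toReg (chStr S J [])) (vec μ a E fun n => b n * v⁻¹)‖ = α := norm_vecP v
  have hm : ‖UE.map μ (ind ℂ (WC S J n)ᶜ)
      ((XPpr (toReg (chStr S J [])) (vec μ a E fun n => b n * v⁻¹) : XUa μ (toReg (chStr S J []))) : UE μ (L2 G))‖ ≤ α / 2 := by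
    have h1 := mass_of_PprX (μ := μ) (z := zx μ a E) (hz := fun g => zx_bound g) (toReg (chStr S J []))
      (b := fun n => b n * v⁻¹) (A := TC S [J] n) (fun k => TC_mem_FC S J [] n k)
      (B := (WC S J n)ᶜ) (β := α / 2) (fun k =>
        (cl_ind_mono88g hsub _).trans (hR0 _ (F.mul_mem (hb k) (F.inv_mem hv))))
    exact h1
  have hw : α / 2 ≤ ‖UE.map μ (ind ℂ (WC S J n))
      ((XPpr (toReg (chStr S J [])) (vec μ a E fun n => b n * v⁻¹) : XUa μ (toReg (chStr S J []))) : UE μ (L2 G))‖ := by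
    have h1 := norm_add_le (UE.map μ (ind ℂ (WC S J n))
      ((XPpr (toReg (chStr S J [])) (vec μ a E fun n => b n * v⁻¹) : XUa μ (toReg (chStr S J []))) : UE μ (L2 G)))
      (UE.map μ (ind ℂ (WC S J n)ᶜ)
      ((XPpr (toReg (chStr S J [])) (vec μ a E fun n => b n * v⁻¹) : XUa μ (toReg (chStr S J []))) : UE μ (L2 G)))
    rw [← split88g] at h1
    have h2 : ‖((XPpr (toReg (chStr S J [])) (vec μ a E fun n => b n * v⁻¹) : XUa μ (toReg (chStr S J []))) : UE μ (L2 G))‖ = α := hna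
    linarith
  rw [inner_XTL_XTR]
  refine le_trans ?_ (xlower (W := WC S J n) (c := c) (fun γ => ?_) (fun γ => Γ.nonneg γ)
    (fun γ hγ => hpos γ hγ) _)
  · exact mul_le_mul_of_nonneg_left (pow_le_pow_left₀ (half_pos hα).le hw 2) hc.le
  · refine (norm_inner_le_norm _ _).trans ?_
    rw [Γ.nvX, Γ.nv, mul_one]

/-- The reach theorem for the stratum `J`. -/
theorem reachG (S : Sv P) {J : Finset (Fin N)} {K : ℝ → Set G} (hfl : FlG S J K)
    (hK : ∀ R, ∃ n : ℕ, TC S [J] n ∩ (WC S J n)ᶜ ⊆ K R) (F : Subgroup G1) [Countable F] (hF : NonAm F)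
    (p : X → Λ → F) (hp : ∀ l g, MeasurableSet {x | p x l = g})
    (hpe : ∀ (f : F) (x : X) (l : Λ), p ((f : G1) • x) (a.a f x * l) = f * p x l) {b : ℕ → G1} (hb : ∀ n, b n ∈ F)
    (h0 : XPpr (toReg (chStr S J [])) (vec μ a E b) ≠ 0) :
    ∃ β : ℝ, 0 < β ∧ ∀ R : ℝ, ∃ f ∈ F, β ≤ ‖cl μ (ind ℂ (K R)) (zx μ a E f)‖ := by
  by_contra hcon
  push Not at hcon
  have hH : ∀ β : ℝ, 0 < β → ∃ R : ℝ, ∀ f ∈ F, ‖cl μ (ind ℂ (K R)) (zx μ a E f)‖ ≤ β := by
    intro β hβ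
    obtain ⟨R, hR⟩ := hcon β hβ
    exact ⟨R, fun f hf => (hR f hf).le⟩
  obtain ⟨L, i1, i2, i3, ⟨Ψ⟩⟩ := exists_fibX N
  obtain ⟨Γ, hΓ, -, -⟩ := exists_xcoc (chStr S J []) Ψ.toFibM
  obtain ⟨c, hc, hlow⟩ := lowG S hK F hH hb h0 Γ
  refine dilationX F Γ b (posPD S (chStr S J []).b) (fun l hl m hm => loc_mainG S hfl F hH hb hl hm)
    (fun h => pcf_pi (chStr S J []) Ψ.toFibM Γ hΓ h) (fun Q ε hε => ?_) p hp hpe hc hlow hF
  obtain ⟨D, A, hD⟩ := exists_xmul (chStr S J []) Ψ Γ hΓ Q hε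
  exact ⟨D, fun t => pcf_mo (chStr S J []) Ψ A t _ fun γ w => hD γ t w⟩

end Pool.Agent.Helper84.GN.S3.X
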